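import Pool.Agent.R351.GD.J.Tup

/-!
# Isogeny classes of tuples of integral modular invariants: relations of growing degree

The fractional linear substitutions change the degree of a relation by a bounded factor only, and so the theorem
`Pool.Agent.R351.GD.jtuples` on the points with given integral invariants extends to all the points isogenous to them.
-/

set_option autoImplicit false

open Pool.Agent.Y120.J Pool.Agent.Y120.K
open Pool.Agent.TH21.MS (jj)

namespace Pool.Agent.N701.MSC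

open Pool.Agent.R351.GD

/-- a relation between points isogenous to the `v i` gives a relation between the `v i` -/
theorem iso_core {q k δ : ℕ} (w : Fin q → ℂ) (v : Fin k → UpperHalfPlane)
    (hmain : ¬ RelK (Fintype.card (Option (Fin q)) * (δ * 1) + Fintype.card (Fin k) * (δ * 1)) (wo w)
      (fun p : Fin k × Fin 3 => jt (v p.1) p.2))
    (z : Fin k → ℂ)
    (hz : ∀ i, ∃ a b c d : ℚ, a * d - b * c ≠ 0 ∧ z i = ((a : ℂ) * v i + b) / ((c : ℂ) * v i + d)) :
    ¬ RelK δ (wo w) z := by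
  classical
  rintro ⟨K, hK, hKD, P, hP, hP0, hne⟩
  apply hne
  have hδd : δ ≤ Fintype.card (Option (Fin q)) * (δ * 1) + Fintype.card (Fin k) * (δ * 1) := by
    have h1 : 1 ≤ Fintype.card (Option (Fin q)) := Fintype.card_pos
    have h2 : δ * 1 ≤ Fintype.card (Option (Fin q)) * (δ * 1) := Nat.le_mul_of_pos_left _ h1
    omega
  choose g hg using fun i => toM4 (hz i)
  have hdet : ∀ i, ((g i).a : ℂ) * (g i).d - (g i).b * (g i).c ≠ 0 := fun i => by exact_mod_cast (g i).det
  have hden : ∀ i, ((g i).c : ℂ) * (v i : ℂ) + (g i).d ≠ 0 := by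
    intro i h0
    have h1 := hg i
    rw [h0, mul_zero] at h1
    have h2 := hdet i
    by_cases hc : ((g i).c : ℂ) = 0
    · rw [hc, zero_mul, zero_add] at h0
      apply h2
      rw [hc, h0]
      ring
    · apply h2
      have h3 : ((g i).c : ℂ) * (((g i).a : ℂ) * (g i).d - (g i).b * (g i).c) = 0 := by
        linear_combination ((g i).a : ℂ) * (g i).c * h0 + ((g i).c : ℂ) ^ 2 * h1
      exact (mul_eq_zero.1 h3).resolve_left hc
  set P' := clr δ (fun o => (MvPolynomial.X (Sum.inl o) : MvPolynomial (Option (Fin q) ⊕ Fin k × Fin 3) K))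
    (fun i => lin K q (g i).a (g i).b i) (fun i => lin K q (g i).c (g i).d i) P with hP'
  have hdeg : P'.totalDegree ≤ Fintype.card (Option (Fin q)) * (δ * 1) + Fintype.card (Fin k) * (δ * 1) :=
    clr_deg hP (fun a => dX _) (fun b => lin_deg _ _ _) fun b => lin_deg _ _ _
  have hP'0 : MvPolynomial.aeval (Sum.elim (wo w) fun p : Fin k × Fin 3 => jt (v p.1) p.2) P' = 0 := by
    rw [hP', clr_eval hP _ fun i => by
      rw [lin_eval, Sum.elim_inr]
      exact hden i]
    refine mul_eq_zero_of_right _ ?_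
    rw [← hP0]
    congr 2
    funext o
    rcases o with o | i
    · rw [Sum.elim_inl, Sum.elim_inl, MvPolynomial.aeval_X, Sum.elim_inl]
    · rw [Sum.elim_inr, Sum.elim_inr, lin_eval, lin_eval, Sum.elim_inr]
      show ((g i).a * (v i : ℂ) + (g i).b) / ((g i).c * (v i : ℂ) + (g i).d) = z i
      rw [← hg i, mul_div_assoc, div_self (hden i), mul_one]
  have hgen : MvPolynomial.aeval (Sum.elim (fun j => MvPolynomial.C (wo w j)) MvPolynomial.X) P' =
      (0 : MvPolynomial (Fin k × Fin 3) ℂ) := by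
    by_contra h
    exact hmain ⟨K, hK, hKD.trans hδd, P', hdeg, hP'0, h⟩
  have hall : ∀ u : Fin k × Fin 3 → ℂ, MvPolynomial.aeval (Sum.elim (wo w) u) P' = 0 := by
    intro u
    rw [← sbC_eval]
    unfold sbC
    rw [hgen, map_zero]
  have hkey : ∀ u : Fin k → ℂ, (∀ i, ((g i).a : ℂ) - (g i).c * u i ≠ 0) →
      MvPolynomial.aeval (Sum.elim (wo w) u) P = 0 := by
    intro u hu
    have h1 := hall fun p => if p.2 = 0 then ((g p.1).d * u p.1 - (g p.1).b) / ((g p.1).a - (g p.1).c * u p.1) else 0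
    have hM : ∀ i, ((g i).c : ℂ) * (((g i).d * u i - (g i).b) / ((g i).a - (g i).c * u i)) + (g i).d =
        (((g i).a : ℂ) * (g i).d - (g i).b * (g i).c) / ((g i).a - (g i).c * u i) := fun i => mo1 (hu i)
    have hN' : ∀ i, ((g i).a : ℂ) * (((g i).d * u i - (g i).b) / ((g i).a - (g i).c * u i)) + (g i).b =
        (((g i).a : ℂ) * (g i).d - (g i).b * (g i).c) * u i / ((g i).a - (g i).c * u i) := fun i => mo2 (hu i)
    have hM0 : ∀ i, ((g i).c : ℂ) * (((g i).d * u i - (g i).b) / ((g i).a - (g i).c * u i)) + (g i).d ≠ 0 := by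
      intro i
      rw [hM i]
      exact div_ne_zero (hdet i) (hu i)
    rw [hP', clr_eval hP _ fun i => by
      rw [lin_eval, Sum.elim_inr]
      simp only [if_true]
      exact hM0 i] at h1
    have h2 := (mul_eq_zero.1 h1).resolve_left (Finset.prod_ne_zero_iff.2 fun i _ => pow_ne_zero _ (by
      rw [lin_eval, Sum.elim_inr]
      simp only [if_true]
      exact hM0 i))
    rw [← h2]
    congr 2
    funext o
    rcases o with o | i
    · rw [Sum.elim_inl, Sum.elim_inl, MvPolynomial.aeval_X, Sum.elim_inl]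
    · rw [Sum.elim_inr, Sum.elim_inr, lin_eval, lin_eval, Sum.elim_inr]
      simp only [if_true]
      rw [hM i, hN' i]
      exact (mo3 (hu i) (hdet i)).symm
  have hfr : fr w P * ∏ i, (MvPolynomial.C ((g i).a : ℂ) - MvPolynomial.C ((g i).c : ℂ) * MvPolynomial.X i) = 0 := by
    refine MvPolynomial.funext fun u => ?_
    rw [map_mul, map_zero, map_prod, fr_eval]
    by_cases hu : ∀ i, ((g i).a : ℂ) - (g i).c * u i ≠ 0
    · rw [hkey u hu, zero_mul]
    · push Not at hu
      obtain ⟨i, hi⟩ := hu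
      refine mul_eq_zero_of_right _ (Finset.prod_eq_zero (Finset.mem_univ i) ?_)
      rw [map_sub, map_mul, MvPolynomial.eval_C, MvPolynomial.eval_C, MvPolynomial.eval_X]
      exact hi
  have hfr0 : fr w P = 0 := by
    refine (mul_eq_zero.1 hfr).resolve_right (Finset.prod_ne_zero_iff.2 fun i _ hi => ?_)
    have h0 := congrArg (MvPolynomial.eval fun _ => (0 : ℂ)) hi
    have h1 := congrArg (MvPolynomial.eval fun _ => (1 : ℂ)) hi
    rw [map_sub, map_mul, MvPolynomial.eval_C, MvPolynomial.eval_C, MvPolynomial.eval_X, map_zero, mul_zero, sub_zero] at h0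
    rw [map_sub, map_mul, MvPolynomial.eval_C, MvPolynomial.eval_C, MvPolynomial.eval_X, map_zero, mul_one, h0, zero_sub,
      neg_eq_zero] at h1
    apply hdet i
    rw [h0, h1]
    ring
  exact hfr0

open Classical in
/-- **Tuples of integral invariants, isogeny classes** -/
theorem isotuples (k q : ℕ) : ∃ C : ℕ, ∀ (δ : ℕ) (w : Fin q → ℂ) (T : ℕ), 1 ≤ T →
    (((Fintype.piFinset fun _ : Fin k => Finset.Icc (-(T : ℤ)) T).filter fun n => (∀ i, n i ≠ 0) ∧
      ∃ v : Fin k → UpperHalfPlane, (∀ i, jj (v i) = (n i : ℂ)) ∧ ∃ z : Fin k → ℂ,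
        (∀ i, ∃ a b c d : ℚ, a * d - b * c ≠ 0 ∧ z i = ((a : ℂ) * v i + b) / ((c : ℂ) * v i + d)) ∧
        RelK δ (wo w) z).card : ℝ) ≤
      C * (T : ℝ) ^ ((k : ℝ) - 1 / ((δ : ℝ) + 2) ^ C) := by
  obtain ⟨C₀, hC₀⟩ := jtuples k q
  refine ⟨(q + k + 2) * C₀, fun δ w T hT => ?_⟩
  have hT1 : (1 : ℝ) ≤ T := by exact_mod_cast hT
  have hsub : ((Fintype.piFinset fun _ : Fin k => Finset.Icc (-(T : ℤ)) T).filter fun n => (∀ i, n i ≠ 0) ∧
      ∃ v : Fin k → UpperHalfPlane, (∀ i, jj (v i) = (n i : ℂ)) ∧ ∃ z : Fin k → ℂ,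
        (∀ i, ∃ a b c d : ℚ, a * d - b * c ≠ 0 ∧ z i = ((a : ℂ) * v i + b) / ((c : ℂ) * v i + d)) ∧
        RelK δ (wo w) z) ⊆
      ((Fintype.piFinset fun _ : Fin k => Finset.Icc (-(T : ℤ)) T).filter fun n => (∀ i, n i ≠ 0) ∧
      ∃ z : Fin k → UpperHalfPlane, (∀ i, jj (z i) = (n i : ℂ)) ∧
        RelK (Fintype.card (Option (Fin q)) * (δ * 1) + Fintype.card (Fin k) * (δ * 1)) (wo w)
          (fun v : Fin k × Fin 3 => jt (z v.1) v.2)) := by
    intro n hn
    obtain ⟨hn1, hn0, v, hv, z, hz, hrel⟩ := Finset.mem_filter.1 hn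
    refine Finset.mem_filter.2 ⟨hn1, hn0, v, hv, ?_⟩
    by_contra hcon
    exact iso_core w v hcon z hz hrel
  have h1 : Fintype.card (Option (Fin q)) * (δ * 1) + Fintype.card (Fin k) * (δ * 1) = (q + 1 + k) * δ := by
    rw [Fintype.card_option, Fintype.card_fin, Fintype.card_fin]
    ring
  have h2 := hC₀ (Fintype.card (Option (Fin q)) * (δ * 1) + Fintype.card (Fin k) * (δ * 1)) w T hT
  refine (Nat.cast_le.2 (Finset.card_le_card hsub)).trans (h2.trans ?_)
  rw [h1]
  have h3 : ((((q + 1 + k) * δ : ℕ) : ℝ) + 2) ^ C₀ ≤ ((δ : ℝ) + 2) ^ ((q + k + 2) * C₀) := by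
    rw [pow_mul]
    refine pow_le_pow_left₀ (by positivity) ?_ _
    have h4 : (q + 1 + k) * δ + 2 ≤ (δ + 2) ^ (q + k + 2) := by
      calc (q + 1 + k) * δ + 2 ≤ (q + k + 1) * (δ + 2) := by nlinarith
        _ ≤ 2 ^ (q + k + 1) * (δ + 2) := Nat.mul_le_mul_right _ (Nat.lt_two_pow_self).le
        _ ≤ (δ + 2) ^ (q + k + 1) * (δ + 2) :=
          Nat.mul_le_mul_right _ (Nat.pow_le_pow_left (by omega) _)
        _ = (δ + 2) ^ (q + k + 2) := by ring
    exact_mod_cast h4
  have h5 : 1 / ((δ : ℝ) + 2) ^ ((q + k + 2) * C₀) ≤ 1 / ((((q + 1 + k) * δ : ℕ) : ℝ) + 2) ^ C₀ :=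
    one_div_le_one_div_of_le (by positivity) h3
  have h6 : (C₀ : ℝ) ≤ (((q + k + 2) * C₀ : ℕ) : ℝ) := by
    exact_mod_cast Nat.le_mul_of_pos_left _ (by omega)
  refine mul_le_mul h6 (Real.rpow_le_rpow_of_exponent_le hT1 (by linarith)) (by positivity) (by positivity)

end Pool.Agent.N701.MSC
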